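import Pool.Agent.Helper65.EV.St

/-!
# Project EV, module RA : the choice of the times and levels
-/

set_option autoImplicit false

open MeasureTheory ProbabilityTheory Set Filter
open scoped ENNReal Topology
open Pool.Agent.Helper84.Eve Pool.Agent.Helper65.EV

namespace Pool.Agent.Helper92.EV

private theorem ex_j0 (x : ℝ) (ε : ℝ≥0∞) (hε : ε ≠ 0) :
    ∃ j0 : ℕ, ENNReal.ofReal x ≤ ε * ENNReal.ofReal ((2 : ℝ) ^ j0) := by
  rcases eq_or_ne ε ∞ with h | h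
  · refine ⟨0, ?_⟩
    rw [h, pow_zero, ENNReal.ofReal_one, mul_one]
    exact le_top
  · have h1 : 0 < ε.toReal := ENNReal.toReal_pos hε h
    obtain ⟨j, hj⟩ := pow_unbounded_of_one_lt (x / ε.toReal) (by norm_num : (1 : ℝ) < 2)
    refine ⟨j, ?_⟩
    rw [← ENNReal.ofReal_toReal h, ← ENNReal.ofReal_mul h1.le]
    apply ENNReal.ofReal_le_ofReal
    rw [div_lt_iff₀ h1] at hj
    linarith

private theorem int_ne_top {Λ : Measure ℝ} (hΛ : DustRegime Λ) (h3 : SH) :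
    ∑' i, mu Λ i ≠ ∞ := by
  have h4 := h3.sum_mu hΛ 0
  simp only [zero_add] at h4
  rw [h4]
  exact ne_top_of_le_ne_top hΛ.m1_ne_top (setLIntegral_le_lintegral _ _)

theorem hRA (h1 : AAP) (h2 : hPHI) (h3 : SH) (h4 : hSEL) : hRA := by
  intro Λ hΛ hJ a ε H hε hH
  have hε2 : ε / 2 ≠ 0 := by
    simp [hε]
  obtain ⟨j0, hj0⟩ := ex_j0 (Real.log (a + 1)) (ε / 2) hε2
  obtain ⟨J, t, ht, ht0, hle, hsum⟩ := h4 (mu Λ) (tau Λ) (h3.tau_mono hΛ) (h3.tau_ne_top hΛ)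
    (int_ne_top hΛ h3) (h3.sum_top hΛ hJ) (ε / 2) j0 (8 * H) hε2
    (ENNReal.mul_ne_top (by norm_num) hH)
  refine ⟨J, t, fun j => ⌈Real.exp ((2 : ℝ) ^ (j0 + j))⌉₊, fun j => (2 : ℝ) ^ (j0 + j), ht, ht0,
    fun j => ⟨by positivity, ?_⟩, fun j _ => ?_, ?_⟩
  · have h5 := Nat.le_ceil (Real.exp ((2 : ℝ) ^ (j0 + j)))
    have h6 := Real.exp_pos ((2 : ℝ) ^ (j0 + j))
    rw [Real.le_log_iff_exp_le (by linarith)]
    linarith
  · refine ENNReal.div_le_of_le_mul ?_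
    have h5 : ENNReal.ofReal (Real.log (a + 1)) ≤ ε / 2 * ENNReal.ofReal ((2 : ℝ) ^ (j0 + j)) := by
      refine hj0.trans ?_
      gcongr
      · norm_num
      · omega
    have h6 : (t (j + 1) : ℝ≥0∞) * AA Λ ((2 : ℝ) ^ (j0 + j)) ≤
        ε / 2 * ENNReal.ofReal ((2 : ℝ) ^ (j0 + j)) := by
      calc (t (j + 1) : ℝ≥0∞) * AA Λ ((2 : ℝ) ^ (j0 + j)) ≤
            ε / 2 * tau Λ (j0 + j) * AA Λ ((2 : ℝ) ^ (j0 + j)) := by
            gcongr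
            exact hle j
        _ = ε / 2 * (ENNReal.ofReal ((2 : ℝ) ^ (j0 + j)) / AA Λ ((2 : ℝ) ^ (j0 + j)) *
            AA Λ ((2 : ℝ) ^ (j0 + j))) := by
            rw [mul_assoc]; rfl
        _ = ε / 2 * ENNReal.ofReal ((2 : ℝ) ^ (j0 + j)) := by
            rw [ENNReal.div_mul_cancel (h1.ne_zero hΛ _ (by positivity)) (h1.ne_top hΛ _)]
    calc ENNReal.ofReal (Real.log (a + 1)) + (t (j + 1) : ℝ≥0∞) * AA Λ ((2 : ℝ) ^ (j0 + j)) ≤
          ε / 2 * ENNReal.ofReal ((2 : ℝ) ^ (j0 + j)) +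
            ε / 2 * ENNReal.ofReal ((2 : ℝ) ^ (j0 + j)) := add_le_add h5 h6
      _ = ε * ENNReal.ofReal ((2 : ℝ) ^ (j0 + j)) := by
          rw [← add_mul, ENNReal.add_halves]
  · have h5 : ∀ j : ℕ, ∑' i, mu Λ (j0 + j + i) ≤
        8 * phi Λ ⌈Real.exp ((2 : ℝ) ^ (j0 + j))⌉₊ := by
      intro j
      rw [h3.sum_mu hΛ (j0 + j)]
      exact h2 hΛ _ (one_le_pow₀ (by norm_num))
    have h6 : 8 * H ≤ 8 * ∑ j ∈ Finset.range J, ((t (j + 1) - t j : ℕ) : ℝ≥0∞) *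
        phi Λ ⌈Real.exp ((2 : ℝ) ^ (j0 + j))⌉₊ := by
      refine hsum.trans ?_
      rw [Finset.mul_sum]
      refine Finset.sum_le_sum fun j _ => ?_
      calc ((t (j + 1) - t j : ℕ) : ℝ≥0∞) * ∑' i, mu Λ (j0 + j + i) ≤
            ((t (j + 1) - t j : ℕ) : ℝ≥0∞) * (8 * phi Λ ⌈Real.exp ((2 : ℝ) ^ (j0 + j))⌉₊) := by
            gcongr
            exact h5 j
        _ = 8 * (((t (j + 1) - t j : ℕ) : ℝ≥0∞) * phi Λ ⌈Real.exp ((2 : ℝ) ^ (j0 + j))⌉₊) := by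
            ring
    exact (ENNReal.mul_le_mul_iff_right (by norm_num) (by norm_num)).mp h6

end Pool.Agent.Helper92.EV
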